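import Pool.Agent.H69.LQ.Lib
import Pool.Agent.H69.LQ.Targets1
import Pool.Agent.H2.LQ.CE

/-!
# MP_8f7db2_an, board lq1_modules: row CE1 (the centre)
-/

set_option autoImplicit false

open MeasureTheory Metric Set
open scoped ENNReal
open Pool.Agent.H85.LK (E adm lam Ann)
open Pool.Agent.H69.LQ

namespace Pool.Agent.H63.LQ1

theorem int_le_add {N : ℕ} (A B : Set (E N)) (hB : MeasurableSet B) (hfA : volume A ≠ ⊤)
    (hfB : volume B ≠ ⊤) (z : E N) :
    (∫ x in A, Real.exp (-‖x - z‖ ^ 2)) ≤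
      (∫ x in B, Real.exp (-‖x - z‖ ^ 2)) + volume.real (A \ B) := by
  have h1 := Pool.Agent.H2.LQ.gauss_int A hfA z
  have h2 := Pool.Agent.H2.LQ.gauss_int B hfB z
  have h3 := integral_inter_add_sdiff hB h1
  have hd : volume (A \ B) ≠ ⊤ := ne_top_of_le_ne_top hfA (measure_mono sdiff_subset)
  have h4 : (∫ x in A \ B, Real.exp (-‖x - z‖ ^ 2)) ≤ volume.real (A \ B) := by
    have h5 : (∫ x in A \ B, Real.exp (-‖x - z‖ ^ 2)) ≤ ∫ _ in A \ B, (1 : ℝ) := by
      refine setIntegral_mono (Pool.Agent.H2.LQ.gauss_int _ hd z) (integrableOn_const hd) fun x => ?_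
      rw [Real.exp_le_one_iff]
      nlinarith [sq_nonneg ‖x - z‖]
    simpa using h5
  have h6 : (∫ x in A ∩ B, Real.exp (-‖x - z‖ ^ 2)) ≤ ∫ x in B, Real.exp (-‖x - z‖ ^ 2) :=
    setIntegral_mono_set h2 (ae_of_all _ fun x => (Real.exp_pos _).le)
      (ae_of_all _ inter_subset_right)
  linarith

theorem pf_CE1 (hCD : T_CD) (hCM : T_CM) (hCB : T_CB) : T_CE1 := by
  intro N ε hN hε
  obtain ⟨k, hk, hk1⟩ := hCB N ε hN hε
  refine ⟨k / 3, by positivity, fun Ω c hΩ hvol hsym => ?_⟩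
  have hfinB : volume (ball (0 : E N) 1) ≠ ⊤ := measure_ball_lt_top.ne
  have hfin : volume Ω ≠ ⊤ := hvol ▸ hfinB
  have hpos : 0 < volume Ω := by
    rw [hvol]
    exact measure_ball_pos _ _ one_pos
  obtain ⟨o, ho⟩ := hCM N Ω hN hΩ.measurableSet hfin hpos
  refine ⟨o, ?_, hCD N Ω o hΩ.measurableSet hfin ho⟩
  by_contra hcon
  push Not at hcon
  have hcb := hk1 o c hcon.le
  have hfc : volume (ball c 1) ≠ ⊤ := measure_ball_lt_top.ne
  have hfs : volume (symmDiff Ω (ball c 1)) ≠ ⊤ := by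
    refine ne_top_of_le_ne_top ?_ (measure_mono
      (symmDiff_subset_union (s := Ω) (t := ball c 1)))
    exact ne_top_of_le_ne_top (ENNReal.add_ne_top.2 ⟨hfin, hfc⟩) (measure_union_le _ _)
  have h1 : volume.real (Ω \ ball c 1) ≤ volume.real (symmDiff Ω (ball c 1)) :=
    measureReal_mono (fun x hx => Or.inl hx) hfs
  have h2 : volume.real (ball c 1 \ Ω) ≤ volume.real (symmDiff Ω (ball c 1)) :=
    measureReal_mono (fun x hx => Or.inr hx) hfs
  have h3 := int_le_add Ω (ball c 1) measurableSet_ball hfin hfc o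
  have h4 := int_le_add (ball c 1) Ω hΩ.measurableSet hfc hfin c
  have h7 := ho c
  linarith

end Pool.Agent.H63.LQ1
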